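import Mathlib
import Pool.Agent.TH277.HT.E
import Pool.Agent.H728R3.SR.F
set_option autoImplicit false
set_option linter.unusedSectionVars false

/-! Square functions of Hilbert space valued functions of one variable. -/

namespace Pool.Agent.Q167.RT

open MeasureTheory Set Complex
open scoped ENNReal NNReal
open Pool.Agent.TH277.HT (Adm tr tr_meas tr_bd tr_zero E1 E1_eq E1_meas E1_planch E1t_meas zyg mix
  lint_pi EE EE_mult bdd_int bdd_L2 planch1 ch ch_norm ch_add ch_cont int_of_supp)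

section

variable {H : Type} [NormedAddCommGroup H] [InnerProductSpace ℂ H] [CompleteSpace H]

/-- conservation of mass -/
lemma E1_mass {a : ℝ → H} (ha : Adm a) (t : ℝ) :
    ∫⁻ x : ℝ, ‖E1 a x t‖ₑ ^ 2 = ∫⁻ u, ‖tr a u‖ₑ ^ 2 := by
  set φ : ℝ → H := fun u => ch (u ^ 2 * t) • tr a u with hφ
  have hm : StronglyMeasurable φ := by
    apply StronglyMeasurable.smul
    · have h2 : Continuous fun u : ℝ => ch (u ^ 2 * t) := ch_cont.comp (by fun_prop)
      exact h2.stronglyMeasurable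
    · exact tr_meas ha
  have hn : ∀ u, ‖φ u‖ = ‖tr a u‖ := by
    intro u
    rw [hφ]
    simp only
    rw [norm_smul, ch_norm, one_mul]
  have hb : ∀ u, ‖φ u‖ ≤ 1 := fun u => by
    rw [hn u]
    exact tr_bd ha u
  have h0 : ∀ u, u ∉ Icc (-1 : ℝ) 1 → φ u = 0 := by
    intro u hu
    rw [hφ]
    simp only
    rw [tr_zero a hu, smul_zero]
  have h1 := planch1 φ (bdd_int hm 1 hb h0) (bdd_L2 hm 1 hb h0)
  have h2 : ∀ x, E1 a x t = ∫ u : ℝ, ch (u * x) • φ u := by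
    intro x
    rw [E1_eq]
    apply integral_congr_ae
    refine ae_of_all _ fun u => ?_
    simp only [hφ]
    rw [smul_smul, ← ch_add]
  simp only [h2]
  rw [h1]
  apply lintegral_congr
  intro u
  rw [← ofReal_norm, hn u, ofReal_norm]

variable {ι : Type} [Fintype ι]

/-- a family of Hilbert space valued functions, as one function -/
noncomputable def VV (a : ι → ℝ → H) (u : ℝ) : PiLp 2 (fun _ : ι => H) :=
  WithLp.toLp 2 (fun k => a k u)

lemma VV_norm (a : ι → ℝ → H) (u : ℝ) : ‖VV a u‖ ^ 2 = ∑ k, ‖a k u‖ ^ 2 := by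
  unfold VV
  rw [PiLp.norm_sq_eq_of_L2]

lemma sm_pi {Ω : Type*} [MeasurableSpace Ω] (ψ : ι → Ω → H)
    (h : ∀ i, StronglyMeasurable (ψ i)) :
    StronglyMeasurable fun ω => (fun j => ψ j ω : ι → H) := by
  classical
  have h1 : (fun ω => (fun j => ψ j ω : ι → H)) = fun ω => ∑ i, Pi.single i (ψ i ω) := by
    ext ω j
    rw [Finset.sum_apply, Finset.sum_eq_single j]
    · simp
    · intro i _ hij
      exact Pi.single_eq_of_ne hij.symm _
    · simp
  rw [h1]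
  apply Finset.stronglyMeasurable_fun_sum
  intro i _
  exact (continuous_single i).comp_stronglyMeasurable (h i)

lemma VV_meas {a : ι → ℝ → H} (ha : ∀ k, StronglyMeasurable (a k)) :
    StronglyMeasurable (VV a) := by
  unfold VV
  exact (PiLp.continuous_toLp 2 (fun _ : ι => H)).comp_stronglyMeasurable (sm_pi a ha)

lemma VV_adm {a : ι → ℝ → H} (ha : ∀ k, StronglyMeasurable (a k))
    (hb : ∀ u, ∑ k, ‖a k u‖ ^ 2 ≤ 1) : Adm (VV a) := by
  refine ⟨VV_meas ha, fun u => ?_⟩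
  have h1 := hb u
  rw [← VV_norm] at h1
  nlinarith [norm_nonneg (VV a u)]

lemma adm_of {a : ι → ℝ → H} (ha : ∀ k, StronglyMeasurable (a k))
    (hb : ∀ u, ∑ k, ‖a k u‖ ^ 2 ≤ 1) (k : ι) : Adm (a k) := by
  refine ⟨ha k, fun u => ?_⟩
  have h1 : ‖a k u‖ ^ 2 ≤ 1 :=
    (Finset.single_le_sum (f := fun k => ‖a k u‖ ^ 2) (fun _ _ => sq_nonneg _)
      (Finset.mem_univ k)).trans (hb u)
  nlinarith [norm_nonneg (a k u)]

lemma E1_VV {a : ι → ℝ → H} (ha : ∀ k, StronglyMeasurable (a k))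
    (hb : ∀ u, ∑ k, ‖a k u‖ ^ 2 ≤ 1) (x t : ℝ) (k : ι) :
    E1 (VV a) x t k = E1 (a k) x t := by
  have hA := VV_adm ha hb
  rw [E1_eq, E1_eq]
  have h2 : Continuous fun u : ℝ => ch (u * x + u ^ 2 * t) := ch_cont.comp (by fun_prop)
  have hm : StronglyMeasurable fun u : ℝ => ch (u * x + u ^ 2 * t) • tr (VV a) u :=
    h2.stronglyMeasurable.smul (tr_meas hA)
  have hi : Integrable fun u : ℝ => ch (u * x + u ^ 2 * t) • tr (VV a) u := by
    apply int_of_supp hm 1 1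
    · intro u
      rw [norm_smul, ch_norm, one_mul]
      exact tr_bd hA u
    · intro u hu
      rw [tr_zero _ (fun h => absurd (abs_le.2 h) (not_le.2 hu)), smul_zero]
  have h1 := (PiLp.proj (𝕜 := ℂ) 2 (fun _ : ι => H) k).integral_comp_comm hi
  have h2 : (∫ u : ℝ, ch (u * x + u ^ 2 * t) • tr (VV a) u) k =
      PiLp.proj (𝕜 := ℂ) 2 (fun _ : ι => H) k (∫ u : ℝ, ch (u * x + u ^ 2 * t) • tr (VV a) u) := rfl
  rw [h2, ← h1]
  congr 1
  ext u
  simp only [map_smul]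
  congr 1
  unfold tr
  by_cases h : u ∈ Icc (-1 : ℝ) 1
  · rw [indicator_of_mem h, indicator_of_mem h]
    rfl
  · rw [indicator_of_notMem h, indicator_of_notMem h, map_zero]

/-- the square function -/
noncomputable def Sq (a : ι → ℝ → H) (p : ℝ × ℝ) : ℝ≥0∞ := ∑ k, ‖E1 (a k) p.1 p.2‖ₑ ^ 2

lemma Sq_eq {a : ι → ℝ → H} (ha : ∀ k, StronglyMeasurable (a k))
    (hb : ∀ u, ∑ k, ‖a k u‖ ^ 2 ≤ 1) (p : ℝ × ℝ) :
    Sq a p = ENNReal.ofReal (‖E1 (VV a) p.1 p.2‖ ^ 2) := by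
  rw [PiLp.norm_sq_eq_of_L2, ENNReal.ofReal_sum_of_nonneg fun _ _ => sq_nonneg _]
  unfold Sq
  apply Finset.sum_congr rfl
  intro k _
  rw [E1_VV ha hb, ENNReal.ofReal_pow (norm_nonneg _), ofReal_norm]

lemma Sq_meas {a : ι → ℝ → H} (ha : ∀ k, Adm (a k)) : Measurable (Sq a) :=
  Finset.measurable_sum _ fun k _ => (E1_meas (ha k)).enorm.pow_const 2

end

/-- the `L^{2s}` bound of the square function, `s > 2` -/
theorem sq_int (s : ℝ) (hs : 2 < s) : ∃ C : ℝ≥0, ∀ (H : Type) [NormedAddCommGroup H]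
    [InnerProductSpace ℂ H] [CompleteSpace H] (ι : Type) [Fintype ι] (a : ι → ℝ → H),
    (∀ k, StronglyMeasurable (a k)) → (∀ u, ∑ k, ‖a k u‖ ^ 2 ≤ 1) →
    ∫⁻ p : ℝ × ℝ, Sq a p ^ s ≤ C := by
  obtain ⟨C, hC⟩ := zyg s hs
  refine ⟨C, ?_⟩
  intro H _ _ _ ι _ a ha hb
  refine le_trans (le_of_eq ?_) (hC _ (VV a) (VV_adm ha hb))
  apply lintegral_congr
  intro p
  rw [Sq_eq ha hb, ENNReal.ofReal_rpow_of_nonneg (sq_nonneg _) (by linarith)]

/-- Hölder's inequality for finite sums of products. -/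
lemma sum_prod_le {ι : Type} [Fintype ι] (n : ℕ) (hn : 1 ≤ n) (X : ι → Fin n → ℝ≥0∞) :
    ∑ k, ∏ j, X k j ^ (1 / (n : ℝ)) ≤ ∏ j, (∑ k, X k j) ^ (1 / (n : ℝ)) := by
  let _ : MeasurableSpace ι := ⊤
  have : MeasurableSingletonClass ι := ⟨fun _ => trivial⟩
  have hn0 : (0 : ℝ) < n := by exact_mod_cast hn
  have h := ENNReal.lintegral_prod_norm_pow_le (μ := (Measure.count : Measure ι)) Finset.univ
    (f := fun j k => X k j) (fun j _ => (measurable_of_finite _).aemeasurable)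
    (p := fun _ : Fin n => 1 / (n : ℝ)) (by
      rw [Finset.sum_const, Finset.card_univ, Fintype.card_fin, nsmul_eq_mul,
        mul_one_div_cancel hn0.ne']) (fun j _ => by positivity)
  simpa only [lintegral_count, tsum_fintype] using h

end Pool.Agent.Q167.RT
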