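import Mathlib
import Pool.Agent.Q167.RT.One
set_option autoImplicit false
set_option linter.unusedSectionVars false

/-! The square function of a family of tensors. -/

namespace Pool.Agent.Q167.RT

open MeasureTheory Set Complex
open scoped ENNReal NNReal
open Pool.Agent.TH277.HT (Adm tr tr_meas tr_bd tr_zero E1 E1_eq E1_meas E1_planch E1t_meas zyg mix
  lint_pi EE EE_mult bdd_int bdd_L2 planch1 ch ch_norm ch_add ch_cont int_of_supp)
open Pool.Agent.H728R3.SR (jensen)

attribute [local irreducible] E1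

section

variable {H : Type} [NormedAddCommGroup H] [InnerProductSpace ℂ H] [CompleteSpace H]
variable {ι : Type} [Fintype ι] {n : ℕ}

/-- total mass of the special factors -/
lemma mass_le {a : ι → ℝ → H} (ha : ∀ k, StronglyMeasurable (a k))
    (hb : ∀ u, ∑ k, ‖a k u‖ ^ 2 ≤ 1) : ∑ k, ∫⁻ u, ‖tr (a k) u‖ₑ ^ 2 ≤ 2 := by
  have hA := adm_of ha hb
  rw [← lintegral_finsetSum _ fun k _ => ((tr_meas (hA k)).enorm.pow_const 2)]
  calc ∫⁻ u, ∑ k, ‖tr (a k) u‖ₑ ^ 2 ≤ ∫⁻ u, (Icc (-1 : ℝ) 1).indicator (fun _ => 1) u := by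
        apply lintegral_mono
        intro u
        simp only
        by_cases h : u ∈ Icc (-1 : ℝ) 1
        · rw [indicator_of_mem h]
          have h1 : ∀ k, ‖tr (a k) u‖ₑ ^ 2 = ENNReal.ofReal (‖a k u‖ ^ 2) := by
            intro k
            unfold tr
            rw [indicator_of_mem h, ENNReal.ofReal_pow (norm_nonneg _), ofReal_norm]
          simp only [h1]
          rw [← ENNReal.ofReal_sum_of_nonneg fun _ _ => sq_nonneg _, ← ENNReal.ofReal_one]
          exact ENNReal.ofReal_le_ofReal (hb u)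
        · rw [indicator_of_notMem h]
          apply le_of_eq
          apply Finset.sum_eq_zero
          intro k _
          rw [tr_zero _ h, enorm_zero]
          simp
    _ = 2 := by
        rw [lintegral_indicator measurableSet_Icc, setLIntegral_one, Real.volume_Icc]
        norm_num

/-- the time profile of one factor -/
noncomputable def Hf (a : ℝ → H) (q t : ℝ) : ℝ≥0∞ := ∫⁻ x : ℝ, ‖E1 a x t‖ₑ ^ q

lemma Hf_meas {a : ℝ → H} (ha : Adm a) (q : ℝ) : Measurable (Hf a q) :=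
  ((E1_meas ha).enorm.pow_const q).lintegral_prod_left'

/-- squares of all factors -/
noncomputable def TS (a : ι → Fin n → ℝ → H) (y : (Fin n → ℝ) × ℝ) : ℝ≥0∞ :=
  ∑ k, ∏ j, ‖E1 (a k j) (y.1 j) y.2‖ₑ ^ 2

lemma fac_meas {a : ℝ → H} (ha : Adm a) (j : Fin n) (q : ℝ) :
    Measurable fun y : (Fin n → ℝ) × ℝ => ‖E1 a (y.1 j) y.2‖ₑ ^ q := by
  have h3 : Measurable fun y : (Fin n → ℝ) × ℝ => ((y.1 j, y.2) : ℝ × ℝ) := by fun_prop
  exact ((E1_meas ha).enorm.pow_const q).comp h3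

lemma fac_meas2 {a : ℝ → H} (ha : Adm a) (j : Fin n) :
    Measurable fun y : (Fin n → ℝ) × ℝ => ‖E1 a (y.1 j) y.2‖ₑ ^ 2 := by
  have h3 : Measurable fun y : (Fin n → ℝ) × ℝ => ((y.1 j, y.2) : ℝ × ℝ) := by fun_prop
  exact ((E1_meas ha).enorm.pow_const 2).comp h3

lemma TS_meas {a : ι → Fin n → ℝ → H} (ha : ∀ k j, Adm (a k j)) : Measurable (TS a) :=
  Finset.measurable_sum _ fun k _ => Finset.measurable_prod _ fun j _ => fac_meas2 (ha k j) j

open Classical in
/-- the factors after Jensen's inequality -/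
noncomputable def gg (a : ι → Fin n → ℝ → H) (i : Fin n) (q : ℝ) (k : ι) (j : Fin n)
    (p : ℝ × ℝ) : ℝ≥0∞ :=
  if j = i then Sq (fun k => a k i) p ^ (q / 2 - 1) * ‖E1 (a k i) p.1 p.2‖ₑ ^ 2
  else ‖E1 (a k j) p.1 p.2‖ₑ ^ q

lemma gg_meas {a : ι → Fin n → ℝ → H} (ha : ∀ k j, Adm (a k j)) (i : Fin n) (q : ℝ) (k : ι)
    (j : Fin n) : Measurable (gg a i q k j) := by
  unfold gg
  split_ifs
  · exact ((Sq_meas fun k => ha k i).pow_const _).mul ((E1_meas (ha k i)).enorm.pow_const 2)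
  · exact (E1_meas (ha k j)).enorm.pow_const q

lemma gg_meas1 {a : ι → Fin n → ℝ → H} (ha : ∀ k j, Adm (a k j)) (i : Fin n) (q : ℝ) (k : ι)
    (j : Fin n) (t : ℝ) : Measurable fun x : ℝ => gg a i q k j (x, t) :=
  (gg_meas ha i q k j).comp (by fun_prop : Measurable fun x : ℝ => ((x, t) : ℝ × ℝ))

/-- Jensen's inequality -/
lemma TS_pt (a : ι → Fin n → ℝ → H) (i : Fin n) (q : ℝ) (h2 : 2 < q) (y : (Fin n → ℝ) × ℝ) :
    TS a y ^ (q / 2) ≤ ∑ k, ∏ j, gg a i q k j (y.1 j, y.2) := by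
  classical
  have e1 : TS a y = ∑ k, ‖E1 (a k i) (y.1 i) y.2‖ₑ ^ 2 *
      ∏ j ∈ Finset.univ.erase i, ‖E1 (a k j) (y.1 j) y.2‖ₑ ^ 2 := by
    unfold TS
    apply Finset.sum_congr rfl
    intro k _
    exact (Finset.mul_prod_erase Finset.univ (fun j => ‖E1 (a k j) (y.1 j) y.2‖ₑ ^ 2)
      (Finset.mem_univ i)).symm
  rw [e1]
  refine (jensen (q / 2) (by linarith) _ _).trans (le_of_eq ?_)
  rw [Finset.mul_sum]
  apply Finset.sum_congr rfl
  intro k _
  rw [← Finset.mul_prod_erase Finset.univ (fun j => gg a i q k j (y.1 j, y.2)) (Finset.mem_univ i),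
    ← mul_assoc]
  congr 1
  · unfold gg Sq
    rw [if_pos rfl]
  · rw [← ENNReal.prod_rpow_of_nonneg (by linarith)]
    apply Finset.prod_congr rfl
    intro j hj
    unfold gg
    rw [if_neg (Finset.ne_of_mem_erase hj), ← ENNReal.rpow_natCast, ← ENNReal.rpow_mul]
    congr 1
    push_cast
    ring

open Classical in
/-- the factors after Hölder's inequality -/
noncomputable def ph (a : ι → Fin n → ℝ → H) (i : Fin n) (q : ℝ) (k : ι) (j : Fin n)
    (p : ℝ × ℝ) : ℝ≥0∞ :=
  ‖E1 (a k i) p.1 p.2‖ₑ ^ 2 * if j = i then Sq (fun k => a k i) p ^ ((q / 2 - 1) * n)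
    else Hf (a k j) q p.2 ^ (n : ℝ)

lemma ph_meas {a : ι → Fin n → ℝ → H} (ha : ∀ k j, Adm (a k j)) (i : Fin n) (q : ℝ) (k : ι)
    (j : Fin n) : Measurable (ph a i q k j) := by
  unfold ph
  apply ((E1_meas (ha k i)).enorm.pow_const 2).mul
  split_ifs
  · exact (Sq_meas fun k => ha k i).pow_const _
  · exact ((Hf_meas (ha k j) q).comp measurable_snd).pow_const _

lemma prod_gg {a : ι → Fin n → ℝ → H} (ha : ∀ k j, Adm (a k j)) (hn : 1 ≤ n) (i : Fin n)
    (q : ℝ) (k : ι) (t : ℝ) :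
    ∏ j, ∫⁻ x, gg a i q k j (x, t) = ∫⁻ x, ∏ j, ph a i q k j (x, t) ^ (1 / (n : ℝ)) := by
  classical
  have hn0 : (0 : ℝ) < n := by exact_mod_cast hn
  have h1 : ∀ x, ∏ j, ph a i q k j (x, t) ^ (1 / (n : ℝ)) =
      gg a i q k i (x, t) * ∏ j ∈ Finset.univ.erase i, Hf (a k j) q t := by
    intro x
    have h2 : ∀ j, ph a i q k j (x, t) ^ (1 / (n : ℝ)) =
        (‖E1 (a k i) x t‖ₑ ^ 2) ^ (1 / (n : ℝ)) *
        (if j = i then Sq (fun k => a k i) (x, t) ^ (q / 2 - 1) else Hf (a k j) q t) := by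
      intro j
      unfold ph
      rw [ENNReal.mul_rpow_of_nonneg _ _ (by positivity)]
      congr 1
      split_ifs
      · rw [← ENNReal.rpow_mul, mul_assoc, mul_one_div_cancel hn0.ne', mul_one]
      · rw [← ENNReal.rpow_mul, mul_one_div_cancel hn0.ne', ENNReal.rpow_one]
    simp only [h2]
    rw [Finset.prod_mul_distrib, Finset.prod_const, Finset.card_univ, Fintype.card_fin,
      ← ENNReal.rpow_natCast, ← ENNReal.rpow_mul, one_div_mul_cancel hn0.ne', ENNReal.rpow_one,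
      ← Finset.mul_prod_erase _ _ (Finset.mem_univ i), if_pos rfl, ← mul_assoc]
    congr 1
    · unfold gg
      rw [if_pos rfl, mul_comm]
    · apply Finset.prod_congr rfl
      intro j hj
      rw [if_neg (Finset.ne_of_mem_erase hj)]
  simp only [h1]
  rw [lintegral_mul_const _ (gg_meas1 ha i q k i t), ← Finset.mul_prod_erase _ _ (Finset.mem_univ i)]
  congr 1
  apply Finset.prod_congr rfl
  intro j hj
  unfold gg Hf
  simp only [if_neg (Finset.ne_of_mem_erase hj)]

end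

/-- one special coordinate -/
theorem one_coord (n : ℕ) (hn : 2 ≤ n) (q : ℝ) (hq : 2 * ((n : ℝ) + 1) / n < q) :
    ∃ C : ℝ≥0∞, C ≠ ⊤ ∧ ∀ (H : Type) [NormedAddCommGroup H] [InnerProductSpace ℂ H]
      [CompleteSpace H] (ι : Type) [Fintype ι] (a : ι → Fin n → ℝ → H) (i : Fin n),
      (∀ k j, Adm (a k j)) → (∀ u, ∑ k, ‖a k i u‖ ^ 2 ≤ 1) →
      ∫⁻ y, TS a y ^ (q / 2) ≤ C := by
  have hn2 : (2 : ℝ) ≤ n := by exact_mod_cast hn
  have hn0 : (0 : ℝ) < n := by linarith
  have hq2 : 2 < n * (q - 2) := by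
    rw [div_lt_iff₀ hn0] at hq
    linarith
  have hq0 : 2 < q := by
    by_contra h
    have : n * (q - 2) ≤ 0 := mul_nonpos_of_nonneg_of_nonpos hn0.le (by linarith)
    linarith
  obtain ⟨C1, hC1⟩ := mix n hn q hq
  obtain ⟨C0, hC0⟩ := sq_int (1 + (q / 2 - 1) * n) (by linarith)
  set B : ℝ≥0∞ := C0 + 2 * C1 with hB
  have hBt : B ≠ ⊤ := ENNReal.add_ne_top.2 ⟨ENNReal.coe_ne_top,
    ENNReal.mul_ne_top (by simp) ENNReal.coe_ne_top⟩
  refine ⟨B, hBt, ?_⟩
  intro H _ _ _ ι _ a i ha hi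
  classical
  have hsm : ∀ k, StronglyMeasurable (a k i) := fun k => (ha k i).meas
  have hgm : ∀ k, Measurable fun y : (Fin n → ℝ) × ℝ => ∏ j, gg a i q k j (y.1 j, y.2) := by
    intro k
    apply Finset.measurable_prod
    intro j _
    exact (gg_meas ha i q k j).comp
      (by fun_prop : Measurable fun y : (Fin n → ℝ) × ℝ => ((y.1 j, y.2) : ℝ × ℝ))
  have hX : ∀ k j, ∫⁻ p, ph a i q k j p = if j = i then
      ∫⁻ p : ℝ × ℝ, ‖E1 (a k i) p.1 p.2‖ₑ ^ 2 * Sq (fun k => a k i) p ^ ((q / 2 - 1) * n)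
      else (∫⁻ u, ‖tr (a k i) u‖ₑ ^ 2) * ∫⁻ t, Hf (a k j) q t ^ (n : ℝ) := by
    intro k j
    split_ifs with hji
    · unfold ph
      simp only [if_pos hji]
    · have hm := ph_meas ha i q k j
      rw [Measure.volume_eq_prod, lintegral_prod_symm _ hm.aemeasurable]
      unfold ph
      simp only [if_neg hji]
      rw [← lintegral_const_mul _ ((Hf_meas (ha k j) q).pow_const _)]
      apply lintegral_congr
      intro t
      rw [lintegral_mul_const _ ((E1t_meas (ha k i) t).enorm.pow_const 2), E1_mass (ha k i)]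
  calc ∫⁻ y, TS a y ^ (q / 2) ≤ ∫⁻ y : (Fin n → ℝ) × ℝ, ∑ k, ∏ j, gg a i q k j (y.1 j, y.2) :=
        lintegral_mono fun y => TS_pt a i q hq0 y
    _ = ∑ k, ∫⁻ y : (Fin n → ℝ) × ℝ, ∏ j, gg a i q k j (y.1 j, y.2) :=
        lintegral_finsetSum _ fun k _ => hgm k
    _ = ∑ k, ∫⁻ p : ℝ × ℝ, ∏ j, ph a i q k j p ^ (1 / (n : ℝ)) := by
        apply Finset.sum_congr rfl
        intro k _
        have hpm : Measurable fun p : ℝ × ℝ => ∏ j, ph a i q k j p ^ (1 / (n : ℝ)) :=
          Finset.measurable_prod _ fun j _ => (ph_meas ha i q k j).pow_const _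
        rw [Measure.volume_eq_prod, lintegral_prod_symm _ (hgm k).aemeasurable,
          Measure.volume_eq_prod, lintegral_prod_symm _ hpm.aemeasurable]
        apply lintegral_congr
        intro t
        rw [← prod_gg ha (by omega) i q k t]
        exact lint_pi (fun j x => gg a i q k j (x, t)) fun j => gg_meas1 ha i q k j t
    _ ≤ ∑ k, ∏ j, (∫⁻ p, ph a i q k j p) ^ (1 / (n : ℝ)) := by
        apply Finset.sum_le_sum
        intro k _
        apply ENNReal.lintegral_prod_norm_pow_le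
        · intro j _
          exact (ph_meas ha i q k j).aemeasurable
        · rw [Finset.sum_const, Finset.card_univ, Fintype.card_fin, nsmul_eq_mul,
            mul_one_div_cancel hn0.ne']
        · intro j _
          positivity
    _ ≤ ∏ j, (∑ k, ∫⁻ p, ph a i q k j p) ^ (1 / (n : ℝ)) :=
        sum_prod_le n (by omega) fun k j => ∫⁻ p, ph a i q k j p
    _ ≤ ∏ _j : Fin n, B ^ (1 / (n : ℝ)) := by
        gcongr with j
        simp only [hX]
        split_ifs with hji
        · have hSm := Sq_meas fun k => ha k i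
          have hmk : ∀ k, Measurable fun p : ℝ × ℝ => ‖E1 (a k i) p.1 p.2‖ₑ ^ 2 *
              Sq (fun k => a k i) p ^ ((q / 2 - 1) * n) := fun k =>
            ((E1_meas (ha k i)).enorm.pow_const 2).mul (hSm.pow_const _)
          rw [← lintegral_finsetSum _ fun k _ => hmk k]
          refine le_trans ?_ le_self_add
          refine le_trans (le_of_eq ?_) (hC0 H ι (fun k => a k i) hsm hi)
          apply lintegral_congr
          intro p
          rw [← Finset.sum_mul, ENNReal.rpow_add_of_nonneg _ _ zero_le_one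
            (mul_nonneg (by linarith) hn0.le), ENNReal.rpow_one]
          rfl
        · refine le_trans ?_ le_add_self
          calc ∑ k, (∫⁻ u, ‖tr (a k i) u‖ₑ ^ 2) * ∫⁻ t, Hf (a k j) q t ^ (n : ℝ)
              ≤ ∑ k, (∫⁻ u, ‖tr (a k i) u‖ₑ ^ 2) * C1 := by
                gcongr with k
                exact hC1 H (a k j) (ha k j)
            _ = (∑ k, ∫⁻ u, ‖tr (a k i) u‖ₑ ^ 2) * C1 := by rw [Finset.sum_mul]
            _ ≤ 2 * C1 := by
                gcongr
                exact mass_le hsm hi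
    _ = B := by
        rw [Finset.prod_const, Finset.card_univ, Fintype.card_fin, ← ENNReal.rpow_natCast,
          ← ENNReal.rpow_mul, one_div_mul_cancel hn0.ne', ENNReal.rpow_one]

end Pool.Agent.Q167.RT
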