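import Mathlib
import Pool.Agent.Q167.RT.Two
set_option autoImplicit false
set_option linter.unusedSectionVars false

/-! The square function of a family of tensors, the special coordinate may depend on the tensor;
averages over signs. -/

namespace Pool.Agent.Q167.RT

open MeasureTheory Set Complex
open scoped ENNReal NNReal
open Pool.Agent.TH277.HT (Adm tr tr_meas tr_bd tr_zero E1 E1_eq E1_meas E1_planch E1t_meas zyg mix
  lint_pi EE EE_mult bdd_int bdd_L2 planch1 ch ch_norm ch_add ch_cont int_of_supp cube_vol)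
open Pool.Agent.H728R3.SR (jensen sg khinchine K1)

attribute [local irreducible] E1

/-- the extension operator is additive -/
lemma EE_sum {n : ℕ} {ι : Type} (s : Finset ι) (c : ι → ℂ) (f : ι → (Fin n → ℝ) → ℂ)
    (hm : ∀ k, Measurable (f k)) (hb : ∀ k ξ, ‖f k ξ‖ ≤ 1) (y : (Fin n → ℝ) × ℝ) :
    EE (fun ξ => ∑ k ∈ s, c k * f k ξ) y = ∑ k ∈ s, c k * EE (f k) y := by
  unfold EE
  simp only [← integral_const_mul]
  rw [← integral_finsetSum]
  · congr 1
    ext ξ
    rw [Finset.mul_sum]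
    apply Finset.sum_congr rfl
    intro k _
    ring
  · intro k _
    apply Integrable.const_mul
    have hmk : Measurable fun ξ : Fin n → ℝ =>
        ch (∑ j, ξ j * y.1 j + (∑ j, ξ j ^ 2) * y.2) * f k ξ :=
      (ch_cont.comp (by fun_prop : Continuous fun ξ : Fin n → ℝ =>
        (∑ j, ξ j * y.1 j + (∑ j, ξ j ^ 2) * y.2))).measurable.mul (hm k)
    apply IntegrableOn.of_bound _ hmk.aestronglyMeasurable 1
    · refine ae_of_all _ fun ξ => ?_
      rw [norm_mul, ch_norm, one_mul]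
      exact hb k ξ
    · rw [cube_vol]
      exact ENNReal.pow_lt_top (by norm_num)

/-- the extension operator only sees the cube -/
lemma E1_tr {H : Type} [NormedAddCommGroup H] [InnerProductSpace ℂ H] [CompleteSpace H]
    (a : ℝ → H) (x t : ℝ) : E1 (tr a) x t = E1 a x t := by
  rw [E1_eq, E1_eq]
  congr 1
  ext u
  congr 1
  unfold tr
  by_cases h : u ∈ Icc (-1 : ℝ) 1
  · rw [indicator_of_mem h]
  · rw [indicator_of_notMem h, indicator_of_notMem h]

/-- the square function, the special coordinate depends on the tensor -/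
theorem TS_all (n : ℕ) (hn : 2 ≤ n) (q : ℝ) (hq : 2 * ((n : ℝ) + 1) / n < q) :
    ∃ C : ℝ≥0∞, C ≠ ⊤ ∧ ∀ (H : Type) [NormedAddCommGroup H] [InnerProductSpace ℂ H]
      [CompleteSpace H] (ι : Type) [Fintype ι] (a : ι → Fin n → ℝ → H) (i : ι → Fin n),
      (∀ k j, Adm (a k j)) → (∀ j u, ∑ k with i k = j, ‖a k j u‖ ^ 2 ≤ 1) →
      ∫⁻ y, TS a y ^ (q / 2) ≤ C := by
  have hn2 : (2 : ℝ) ≤ n := by exact_mod_cast hn
  have hn0 : (0 : ℝ) < n := by linarith
  have hq0 : 2 < q := by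
    by_contra h
    rw [div_lt_iff₀ hn0] at hq
    have : n * (q - 2) ≤ 0 := mul_nonpos_of_nonneg_of_nonpos hn0.le (by linarith)
    linarith
  obtain ⟨C, hCt, hC⟩ := one_coord n hn q hq
  refine ⟨(n : ℝ≥0∞) ^ (q / 2 - 1) * (n * C), ENNReal.mul_ne_top
    (ENNReal.rpow_ne_top_of_nonneg (by linarith) (ENNReal.natCast_ne_top n))
    (ENNReal.mul_ne_top (ENNReal.natCast_ne_top n) hCt), ?_⟩
  intro H _ _ _ ι _ a i ha hi
  classical
  -- the families with a fixed special coordinate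
  set b : Fin n → ι → Fin n → ℝ → H := fun j0 k j u => if j = j0 ∧ i k ≠ j0 then 0 else a k j u
    with hb
  have hbA : ∀ j0 k j, Adm (b j0 k j) := by
    intro j0 k j
    by_cases h : j = j0 ∧ i k ≠ j0
    · have : b j0 k j = fun _ => 0 := by
        ext u
        simp only [hb, if_pos h]
      rw [this]
      exact ⟨stronglyMeasurable_const, fun _ => by simp⟩
    · have : b j0 k j = a k j := by
        ext u
        simp only [hb, if_neg h]
      rw [this]
      exact ha k j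
  have hbs : ∀ j0 u, ∑ k, ‖b j0 k j0 u‖ ^ 2 ≤ 1 := by
    intro j0 u
    refine le_trans (le_of_eq ?_) (hi j0 u)
    rw [Finset.sum_filter]
    apply Finset.sum_congr rfl
    intro k _
    by_cases h : i k = j0
    · simp [hb, h]
    · simp [hb, h]
  have hpt : ∀ y, TS a y ≤ ∑ j0, TS (b j0) y := by
    intro y
    unfold TS
    rw [Finset.sum_comm]
    apply Finset.sum_le_sum
    intro k _
    have h1 : ∏ j, ‖E1 (a k j) (y.1 j) y.2‖ₑ ^ 2 =
        ∏ j, ‖E1 (b (i k) k j) (y.1 j) y.2‖ₑ ^ 2 := by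
      apply Finset.prod_congr rfl
      intro j _
      have : b (i k) k j = a k j := by
        ext u
        simp [hb]
      rw [this]
    rw [h1]
    exact Finset.single_le_sum (f := fun j0 => ∏ j, ‖E1 (b j0 k j) (y.1 j) y.2‖ₑ ^ 2)
      (fun _ _ => zero_le) (Finset.mem_univ (i k))
  have hj : ∀ y, TS a y ^ (q / 2) ≤ (n : ℝ≥0∞) ^ (q / 2 - 1) * ∑ j0, TS (b j0) y ^ (q / 2) := by
    intro y
    have h1 := jensen (q / 2) (by linarith) (fun _ : Fin n => (1 : ℝ≥0∞)) fun j0 => TS (b j0) y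
    simp only [one_mul] at h1
    calc TS a y ^ (q / 2) ≤ (∑ j0, TS (b j0) y) ^ (q / 2) := by
          gcongr
          exact hpt y
      _ ≤ _ := h1
      _ = _ := by simp
  calc ∫⁻ y, TS a y ^ (q / 2)
      ≤ ∫⁻ y, (n : ℝ≥0∞) ^ (q / 2 - 1) * ∑ j0, TS (b j0) y ^ (q / 2) := lintegral_mono hj
    _ = (n : ℝ≥0∞) ^ (q / 2 - 1) * ∑ j0, ∫⁻ y, TS (b j0) y ^ (q / 2) := by
        rw [lintegral_const_mul' _ _ (ENNReal.rpow_ne_top_of_nonneg (by linarith)
          (ENNReal.natCast_ne_top n)), lintegral_finsetSum _ fun j0 _ =>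
          (TS_meas (hbA j0)).pow_const _]
    _ ≤ (n : ℝ≥0∞) ^ (q / 2 - 1) * ∑ _j0 : Fin n, C := by
        gcongr with j0
        exact hC H ι (b j0) j0 (hbA j0) (hbs j0)
    _ = _ := by simp

/-- average over signs -/
theorem avg (n : ℕ) (hn : 2 ≤ n) (q : ℝ) (hq : 2 * ((n : ℝ) + 1) / n < q) :
    ∃ C : ℝ≥0∞, C ≠ ⊤ ∧ ∀ (H : Type) [NormedAddCommGroup H] [InnerProductSpace ℂ H]
      [CompleteSpace H] (N L : ℕ)
      (M : Fin N → ContinuousMultilinearMap ℂ (fun _ : Fin n => H) (EuclideanSpace ℂ (Fin L)))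
      (a : Fin N → Fin n → ℝ → H) (i : Fin N → Fin n),
      (∀ k x, ‖M k x‖ ≤ ∏ j, ‖x j‖) → (∀ k j, Adm (a k j)) →
      (∀ j u, ∑ k with i k = j, ‖a k j u‖ ^ 2 ≤ 1) →
      ((2 : ℝ≥0∞) ^ (N * L))⁻¹ * ∑ ε : Fin N × Fin L → Bool, ∫⁻ y,
        ‖EE (fun ξ => ∑ p, (sg (ε p) : ℂ) * M p.1 (fun j => a p.1 j (ξ j)) p.2) y‖ₑ ^ q ≤ C := by
  have hn2 : (2 : ℝ) ≤ n := by exact_mod_cast hn
  have hn0 : (0 : ℝ) < n := by linarith
  have hq0 : 2 < q := by
    by_contra h
    rw [div_lt_iff₀ hn0] at hq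
    have : n * (q - 2) ≤ 0 := mul_nonpos_of_nonneg_of_nonpos hn0.le (by linarith)
    linarith
  obtain ⟨C, hCt, hC⟩ := TS_all n hn q hq
  refine ⟨ENNReal.ofReal (K1 q) * C, ENNReal.mul_ne_top ENNReal.ofReal_ne_top hCt, ?_⟩
  intro H _ _ _ N L M a i hM ha hi
  -- the components as multilinear forms
  set M' : Fin N × Fin L → ContinuousMultilinearMap ℂ (fun _ : Fin n => H) ℂ := fun p =>
    (EuclideanSpace.proj (𝕜 := ℂ) p.2).compContinuousMultilinearMap (M p.1) with hM'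
  have hM'e : ∀ p x, M' p x = M p.1 x p.2 := fun p x => rfl
  have hcomp : ∀ (p : Fin N × Fin L) x, ‖M p.1 x p.2‖ ≤ ‖M p.1 x‖ := fun p x =>
    PiLp.norm_apply_le _ _
  set f : Fin N × Fin L → (Fin n → ℝ) → ℂ := fun p ξ => M' p fun j => a p.1 j (ξ j) with hf
  have hfm : ∀ p, Measurable (f p) := by
    intro p
    apply StronglyMeasurable.measurable
    apply (M' p).cont.comp_stronglyMeasurable
    exact Pool.Agent.TH277.HT.tuple_meas (fun (j : Fin n) (ξ : Fin n → ℝ) => a p.1 j (ξ j)) fun j =>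
      (ha p.1 j).meas.comp_measurable (measurable_pi_apply j)
  have hfb : ∀ p ξ, ‖f p ξ‖ ≤ 1 := by
    intro p ξ
    simp only [hf, hM'e]
    refine (hcomp _ _).trans ((hM _ _).trans ?_)
    exact Finset.prod_le_one (fun _ _ => norm_nonneg _) fun j _ => (ha p.1 j).bd _
  have hE : ∀ p y, EE (f p) y = M' p fun j => E1 (a p.1 j) (y.1 j) y.2 := fun p y =>
    EE_mult (M' p) (a p.1) (ha p.1) y
  have hsum : ∀ (ε : Fin N × Fin L → Bool) y,
      EE (fun ξ => ∑ p, (sg (ε p) : ℂ) * M p.1 (fun j => a p.1 j (ξ j)) p.2) y =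
      ∑ p, (sg (ε p) : ℂ) * EE (f p) y := fun ε y =>
    EE_sum Finset.univ (fun p => (sg (ε p) : ℂ)) f hfm hfb y
  have hEm : ∀ p, Measurable (EE (f p)) := by
    intro p
    exact (Pool.Agent.TH277.HT.EE_meas (hfm p).stronglyMeasurable).measurable
  have hsq : ∀ y, ∑ p, ‖EE (f p) y‖ₑ ^ 2 ≤ TS a y := by
    intro y
    rw [Fintype.sum_prod_type]
    unfold TS
    apply Finset.sum_le_sum
    intro k _
    simp only [hE, hM'e]
    set v : EuclideanSpace ℂ (Fin L) := M k fun j => E1 (a k j) (y.1 j) y.2 with hv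
    have h1 : ∑ l, ‖v l‖ₑ ^ 2 = ‖v‖ₑ ^ 2 := by
      rw [← ofReal_norm v, ← ENNReal.ofReal_pow (norm_nonneg _), EuclideanSpace.norm_sq_eq,
        ENNReal.ofReal_sum_of_nonneg fun _ _ => sq_nonneg _]
      apply Finset.sum_congr rfl
      intro l _
      rw [ENNReal.ofReal_pow (norm_nonneg _), ofReal_norm]
    rw [h1, Finset.prod_pow]
    gcongr
    rw [← ofReal_norm v]
    calc ENNReal.ofReal ‖v‖ ≤ ENNReal.ofReal (∏ j, ‖E1 (a k j) (y.1 j) y.2‖) :=
          ENNReal.ofReal_le_ofReal (hM k _)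
      _ = ∏ j, ‖E1 (a k j) (y.1 j) y.2‖ₑ := by
          rw [ENNReal.ofReal_prod_of_nonneg fun j _ => norm_nonneg _]
          apply Finset.prod_congr rfl
          intro j _
          rw [ofReal_norm]
  simp only [hsum]
  have hZε : ∀ ε : Fin N × Fin L → Bool, Measurable fun y : (Fin n → ℝ) × ℝ =>
      ‖∑ p, (sg (ε p) : ℂ) * EE (f p) y‖ₑ ^ q := by
    intro ε
    apply Measurable.pow_const
    apply Measurable.enorm
    exact Finset.measurable_sum _ fun p _ => (hEm p).const_mul _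
  rw [← lintegral_finsetSum _ fun ε _ => hZε ε]
  have h1 : ∫⁻ y, ∑ ε : Fin N × Fin L → Bool, ‖∑ p, (sg (ε p) : ℂ) * EE (f p) y‖ₑ ^ q ≤
      2 ^ (N * L) * (ENNReal.ofReal (K1 q) * C) := by
    calc _ ≤ ∫⁻ y, 2 ^ (N * L) * (ENNReal.ofReal (K1 q) * TS a y ^ (q / 2)) := by
          apply lintegral_mono
          intro y
          have := khinchine q (by linarith) (fun p => EE (f p) y)
          rw [Fintype.card_prod, Fintype.card_fin, Fintype.card_fin] at this
          refine this.trans ?_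
          have h2 := hsq y
          simp only
          gcongr
      _ = 2 ^ (N * L) * (ENNReal.ofReal (K1 q) * ∫⁻ y, TS a y ^ (q / 2)) := by
          rw [lintegral_const_mul' _ _ (by simp), lintegral_const_mul' _ _ ENNReal.ofReal_ne_top]
      _ ≤ _ := by
          gcongr
          exact hC H (Fin N) a i ha hi
  calc _ ≤ ((2 : ℝ≥0∞) ^ (N * L))⁻¹ * (2 ^ (N * L) * (ENNReal.ofReal (K1 q) * C)) :=
        mul_le_mul_right h1 _
    _ = _ := by
        rw [← mul_assoc, ENNReal.inv_mul_cancel (by simp) (by simp), one_mul]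

end Pool.Agent.Q167.RT
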